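import Pool.Agent.H247.VE.Stm

/-!
# VE.NP: diffeomorphisms preserve the null sets
-/

set_option autoImplicit false

open scoped Manifold ContDiff Topology
open Filter Set Metric MeasureTheory

universe u

namespace Pool.Agent.H638.VE.NP

open Pool.Agent.H718R2.G Pool.Agent.H247.VE

theorem vol_zero {n : ℕ} {N : Type u} [TopologicalSpace N] [ChartedSpace (V n) N]
    [MeasurableSpace N] {μ : Measure N} {x : N} {ρ : V n → ℝ} (h : Dens n μ x ρ) {B : Set N}
    (hB : B ⊆ (chartAt (V n) x).source) (hm : MeasurableSet B) (h0 : μ B = 0) :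
    volume ((chartAt (V n) x) '' B) = 0 := by
  obtain ⟨hc, hpos, hd⟩ := h
  set ψ := chartAt (V n) x with hψ
  have hsub : ψ '' B ⊆ ψ.target := by
    rintro _ ⟨b, hb, rfl⟩
    exact ψ.map_source (hB hb)
  have h1 := hd B hB hm
  rw [h0] at h1
  have ham : AEMeasurable (fun y => ENNReal.ofReal (ρ y)) (volume.restrict (ψ '' B)) := by
    have h2 : AEMeasurable ρ (volume.restrict ψ.target) :=
      hc.aemeasurable ψ.open_target.measurableSet
    exact (h2.mono_measure (Measure.restrict_mono hsub le_rfl)).ennreal_ofReal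
  have h3 := (lintegral_eq_zero_iff' ham).1 h1.symm
  have h4 : (volume.restrict (ψ '' B)) {y | ¬ (ENNReal.ofReal (ρ y) = 0)} = 0 := ae_iff.1 h3
  have h5 : ψ '' B ⊆ {y | ¬ (ENNReal.ofReal (ρ y) = 0)} ∩ ψ '' B := by
    intro y hy
    refine ⟨?_, hy⟩
    show ¬ (ENNReal.ofReal (ρ y) = 0)
    rw [ENNReal.ofReal_eq_zero, not_le]
    exact hpos y (hsub hy)
  exact le_antisymm (((measure_mono h5).trans (Measure.le_restrict_apply _ _)).trans h4.le)
    zero_le

theorem main : S_NP.{u} := by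
  intro n N _ _ _ _ _ _ _ μ _ r hr hμ G B hB h0
  have : SecondCountableTopology N := ChartedSpace.secondCountable_of_sigmaCompact (V n) N
  refine measure_null_of_locally_null _ fun x _ => ?_
  set φ := chartAt (V n) x with hφ
  set ψ := chartAt (V n) (G x) with hψ
  set A : Set N := G ⁻¹' B ∩ (φ.source ∩ G ⁻¹' ψ.source) with hA
  have hGc : Continuous G := G.continuous
  have hOo : IsOpen (φ.source ∩ G ⁻¹' ψ.source) :=
    φ.open_source.inter (ψ.open_source.preimage hGc)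
  have hxO : x ∈ φ.source ∩ G ⁻¹' ψ.source :=
    ⟨mem_chart_source _ _, mem_chart_source _ _⟩
  refine ⟨A, inter_mem_nhdsWithin _ (hOo.mem_nhds hxO), ?_⟩
  have hAm : MeasurableSet A := (hGc.measurable hB).inter hOo.measurableSet
  obtain ⟨ρ, hρ⟩ := hμ x
  obtain ⟨ρ', hρ'⟩ := hμ (G x)
  rw [hρ.2.2 A (fun a ha => ha.2.1) hAm]
  refine setLIntegral_measure_zero _ _ ?_
  -- the image in the other chart
  have hT' : volume (ψ '' (B ∩ ψ.source)) = 0 :=
    vol_zero hρ' inter_subset_right (hB.inter ψ.open_source.measurableSet)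
      (measure_mono_null inter_subset_left h0)
  set T : Set (V n) := ψ '' (B ∩ ψ.source ∩ G.symm ⁻¹' φ.source) with hT
  have hT0 : volume T = 0 :=
    measure_mono_null (image_mono inter_subset_left) hT'
  have hsub : φ '' A ⊆ (fun y => φ (G.symm (ψ.symm y))) '' T := by
    rintro _ ⟨a, ha, rfl⟩
    have e1 : G.symm (G a) = a := G.symm_apply_apply a
    refine ⟨ψ (G a), ⟨G a, ⟨⟨ha.1, ha.2.2⟩, ?_⟩, rfl⟩, ?_⟩
    · show G.symm (G a) ∈ φ.source
      rw [e1]
      exact ha.2.1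
    · show φ (G.symm (ψ.symm (ψ (G a)))) = φ a
      rw [ψ.left_inv ha.2.2, e1]
  refine measure_mono_null hsub ?_
  refine addHaar_image_eq_zero_of_differentiableOn_of_addHaar_eq_zero volume ?_ hT0
  rintro _ ⟨b, ⟨⟨hb1, hb2⟩, hb3⟩, rfl⟩
  refine DifferentiableAt.differentiableWithinAt ?_
  have hy : ψ b ∈ ψ.target := ψ.map_source hb2
  have hψm : ψ ∈ IsManifold.maximalAtlas (𝓡 n) 1 N := IsManifold.chart_mem_maximalAtlas _
  have hφm : φ ∈ IsManifold.maximalAtlas (𝓡 n) 1 N := IsManifold.chart_mem_maximalAtlas _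
  have k1 : ContMDiffAt (𝓡 n) (𝓡 n) 1 ψ.symm (ψ b) := contMDiffAt_symm_of_mem_maximalAtlas hψm hy
  have k2 : ContMDiffAt (𝓡 n) (𝓡 n) 1 G.symm (ψ.symm (ψ b)) :=
    (G.symm.contMDiff.of_le (by exact_mod_cast hr)).contMDiffAt
  have k3 : ContMDiffAt (𝓡 n) (𝓡 n) 1 φ (G.symm (ψ.symm (ψ b))) := by
    refine contMDiffAt_of_mem_maximalAtlas hφm ?_
    rw [ψ.left_inv hb2]
    exact hb3
  have k4 : ContMDiffAt (𝓡 n) (𝓡 n) 1 (fun y => φ (G.symm (ψ.symm y))) (ψ b) :=
    ContMDiffAt.comp (ψ b) k3 (ContMDiffAt.comp (ψ b) k2 k1)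
  exact (contMDiffAt_iff_contDiffAt.1 k4).differentiableAt (by simp)

end Pool.Agent.H638.VE.NP
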